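import Pool.Agent.Helper45.SQ.Main

/-!
# Squares of primes below the Frobenius number: Q2

`pi2 a b` is the number `π₂` of the problem, and `E` is the family of the exceptional pairs.

Large `a`. Let `X = √g`, let `I` be the interval from `(1 - η) X` to `X`, and let `u` be the inverse of `b`
modulo `a`. If `p ∈ I` is a prime such that `p²` is not representable, then the fractional part of `u p² / a` is
within `4 η` of `0` or `1`. By Selberg's sieve, with quadratic exponential sums (Weyl differencing if
`X ≤ a⁴`; residue classes modulo `a` and sums over the units of `ℤ / a` if `X > a⁴`), the number of these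
primes is at most `C η² X / log X`, with an absolute constant `C`. For small `η` this is less than half the
number of the primes in `I`, by the prime number theorem.

Fixed `a`. If the square of a unit `s` modulo `a` is congruent to `Y b` with `0 ≤ Y ≤ a - 2`, the primes
`p ≡ s` modulo `a` between `√(Y b)` and `√((a - 3/2) b)` have representable squares; the prime number theorem in
arithmetic progressions gives the lower bound. There is no such `s` if and only if `a ∣ 24` and `a ∣ b + 1`.
-/

set_option autoImplicit false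

namespace Pool.Agent.Results.MP_22f37c_nt.PrimeSquares

open Pool.Agent.Helper45.SQ

/-- The pairs `(6, 6 m + 5)`, `(8, 8 m + 7)`, `(12, 12 m + 11)`, `(24, 24 m + 23)`. -/
def E : Set (ℕ × ℕ) := {p | ∃ m : ℕ, p = (6, 6 * m + 5) ∨ p = (8, 8 * m + 7) ∨
  p = (12, 12 * m + 11) ∨ p = (24, 24 * m + 23)}

theorem mem_E {a b : ℕ} (ha : 4 < a) (h24 : a ∣ 24) (hb : a ∣ b + 1) : (a, b) ∈ E := by
  obtain ⟨k, hk⟩ := hb
  have ha24 : a ≤ 24 := Nat.le_of_dvd (by norm_num) h24
  have hk1 : 1 ≤ k := by
    rcases Nat.eq_zero_or_pos k with h | h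
    · subst h
      simp at hk
    · exact h
  refine ⟨k - 1, ?_⟩
  have h1 : a = 6 ∨ a = 8 ∨ a = 12 ∨ a = 24 := by
    interval_cases a <;> revert h24 <;> decide
  rcases h1 with rfl | rfl | rfl | rfl
  · left
    rw [Prod.mk.injEq]
    omega
  · right; left
    rw [Prod.mk.injEq]
    omega
  · right; right; left
    rw [Prod.mk.injEq]
    omega
  · right; right; right
    rw [Prod.mk.injEq]
    omega

/-- Only finitely many coprime pairs `1 < a₁ < a₂` outside `E` satisfy `π₂ = 0`. -/
theorem result :
    {p : ℕ × ℕ | 1 < p.1 ∧ p.1 < p.2 ∧ Nat.Coprime p.1 p.2 ∧ p ∉ E ∧ pi2 p.1 p.2 = 0}.Finite := by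
  obtain ⟨c, hc, N, hN⟩ := main
  have hfin : ((Finset.range (N + 4) ×ˢ Finset.range (N + 4) : Finset (ℕ × ℕ)) : Set (ℕ × ℕ)).Finite :=
    Finset.finite_toSet _
  refine hfin.subset ?_
  rintro ⟨a, b⟩ ⟨ha, hab, hco, hE, h0⟩
  simp only at ha hab hco h0
  rw [Finset.mem_coe, Finset.mem_product, Finset.mem_range, Finset.mem_range]
  by_contra hlt
  have hb : N + 4 ≤ b := by
    by_contra hb
    exact hlt ⟨by simp only; omega, by simp only; omega⟩
  obtain ⟨h1, h2⟩ := hN a b ha hab (by omega) hco
  by_cases h24 : a ∣ 24 ∧ a ∣ b + 1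
  · have h3 := h2 h24.1 h24.2
    rw [h0] at h3
    by_cases h4 : a ≤ 4
    · rw [if_pos h4] at h3
      exact absurd h3 (by norm_num)
    · exact hE (mem_E (not_le.1 h4) h24.1 h24.2)
  · have h3 := h1 h24
    rw [h0, Nat.cast_zero] at h3
    have h4 : 0 < size a b := by
      unfold size
      have g1 : (2 : ℝ) ≤ a := by exact_mod_cast ha
      have g2 : (4 : ℝ) ≤ b := by exact_mod_cast (show 4 ≤ b by omega)
      have g3 : 1 < (a : ℝ) * b - a - b := by nlinarith
      exact div_pos (Real.sqrt_pos.2 (by linarith)) (Real.log_pos g3)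
    have h5 := mul_pos hc h4
    linarith

end Pool.Agent.Results.MP_22f37c_nt.PrimeSquares
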